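import Pool.Agent.H37.KR.Defs

/-!
# In each degree the initial ideal is the same for generic coordinates
-/

set_option autoImplicit false

namespace Pool.Agent.H36.KR

open Finset MvPolynomial Pool.Agent.W555.KS Pool.Agent.W460.KS Pool.Agent.H37.KR

/-- a bounded function of natural values has a maximum -/
lemma exists_max {α : Type*} [Nonempty α] (f : α → ℕ) (N : ℕ) (h : ∀ a, f a ≤ N) : ∃ a0, ∀ a, f a ≤ f a0 := by
  have hb : BddAbove (Set.range f) := ⟨N, by rintro _ ⟨a, rfl⟩; exact h a⟩
  obtain ⟨a0, ha0⟩ := Nat.sSup_mem (Set.range_nonempty f) hb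
  exact ⟨a0, fun a => by rw [ha0]; exact le_csSup hb ⟨a, rfl⟩⟩

/-- linear independence is an open condition -/
lemma open_indep {k σ β M : Type*} [Field k] [Fintype M] [DecidableEq M] (w : (σ → k) → β → M → k)
    (P : β → M → MvPolynomial σ k) (hP : ∀ g b μ, eval g (P b μ) = w g b μ) (B : Finset β) (g0 : σ → k)
    (h0 : LinearIndepOn k (w g0) (B : Set β)) :
    ∃ F : MvPolynomial σ k, F ≠ 0 ∧ ∀ g, eval g F ≠ 0 → LinearIndepOn k (w g) (B : Set β) := by
  classical
  set f : ((B : Set β) →₀ k) →ₗ[k] (M → k) := Finsupp.linearCombination k (fun b : (B : Set β) => w g0 b) with hf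
  have hker : LinearMap.ker f = ⊥ := by
    have := h0
    rw [LinearIndepOn, linearIndependent_iff_ker] at this
    exact this
  obtain ⟨T, hT⟩ := LinearMap.exists_leftInverse_of_injective f hker
  have hTg : ∀ b : (B : Set β), T (w g0 b) = Finsupp.single b 1 := by
    intro b
    have h1 := congrArg (fun φ => φ (Finsupp.single b 1)) hT
    simp only [LinearMap.comp_apply, LinearMap.id_apply, hf, Finsupp.linearCombination_single, one_smul] at h1
    exact h1
  have hTs : ∀ (v : M → k) (b' : (B : Set β)), T v b' = ∑ μ, T (Pi.single μ 1) b' * v μ := by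
    intro v b'
    have h1 : v = ∑ μ, v μ • (Pi.single μ (1 : k) : M → k) := by
      funext ν
      rw [Finset.sum_apply, Finset.sum_eq_single ν]
      · simp
      · intro b _ hb
        simp [Ne.symm hb]
      · intro h
        exact absurd (Finset.mem_univ _) h
    conv_lhs => rw [h1]
    rw [map_sum, Finsupp.finset_sum_apply]
    refine Finset.sum_congr rfl fun μ _ => ?_
    rw [map_smul, Finsupp.smul_apply, smul_eq_mul, mul_comm]
  set A : Matrix (B : Set β) (B : Set β) (MvPolynomial σ k) :=
    Matrix.of (fun b b' => ∑ μ, C (T (Pi.single μ 1) b') * P b μ) with hA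
  have hAg : ∀ g, eval g A.det = (Matrix.of (fun b b' : (B : Set β) => T (w g b) b')).det := by
    intro g
    rw [RingHom.map_det]
    congr 1
    ext b b'
    rw [RingHom.mapMatrix_apply, Matrix.map_apply, hA, Matrix.of_apply, Matrix.of_apply, map_sum, hTs]
    refine Finset.sum_congr rfl fun μ _ => ?_
    rw [map_mul, eval_C, hP]
  refine ⟨A.det, ?_, ?_⟩
  · intro h
    have h1 := hAg g0
    rw [h, map_zero] at h1
    have h2 : (Matrix.of (fun b b' : (B : Set β) => T (w g0 b) b')) = 1 := by
      ext b b'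
      rw [Matrix.of_apply, hTg, Matrix.one_apply, Finsupp.single_apply]
    rw [h2, Matrix.det_one] at h1
    exact one_ne_zero h1.symm
  · intro g hg
    rw [hAg] at hg
    have h1 : LinearIndependent k (Matrix.of (fun b b' : (B : Set β) => T (w g b) b')).row :=
      Matrix.linearIndependent_rows_iff_isUnit.2
        ((Matrix.isUnit_iff_isUnit_det _).2 (isUnit_iff_ne_zero.2 hg))
    have h2 : (Matrix.of (fun b b' : (B : Set β) => T (w g b) b')).row =
        (Finsupp.lcoeFun ∘ₗ T : (M → k) →ₗ[k] (↥(B : Set β) → k)) ∘ (fun b : (B : Set β) => w g b) := by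
      funext b b'
      rfl
    rw [h2] at h1
    exact LinearIndependent.of_comp _ h1

/-- the dimension of the span of finitely many vectors is constant for generic parameters -/
lemma generic_rank {k σ β M : Type*} [Field k] [Fintype M] [DecidableEq M] (w : (σ → k) → β → M → k)
    (P : β → M → MvPolynomial σ k) (hP : ∀ g b μ, eval g (P b μ) = w g b μ) (S : Finset β) :
    ∃ (F : MvPolynomial σ k) (R : ℕ), F ≠ 0 ∧
      ∀ g, eval g F ≠ 0 → Module.finrank k (Submodule.span k (w g '' (S : Set β))) = R := by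
  classical
  obtain ⟨g0, hg0⟩ := exists_max (fun g : σ → k => Module.finrank k (Submodule.span k (w g '' (S : Set β))))
    (Fintype.card M) (fun g => (Submodule.finrank_le _).trans (by rw [Module.finrank_fintype_fun_eq_card]))
  obtain ⟨b, hbS, -, hsp, hli⟩ := exists_linearIndepOn_extension (K := k) (v := w g0) (s := ∅) (t := (S : Set β))
    (linearIndepOn_empty _ _) (Set.empty_subset _)
  have hbf : b.Finite := S.finite_toSet.subset hbS
  set B : Finset β := hbf.toFinset with hB
  have hBb : (B : Set β) = b := hbf.coe_toFinset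
  rw [← hBb] at hbS hsp hli
  obtain ⟨F, hF, hFg⟩ := open_indep w P hP B g0 hli
  have hcard : ∀ g, LinearIndepOn k (w g) (B : Set β) →
      Module.finrank k (Submodule.span k (w g '' (B : Set β))) = B.card := by
    intro g hg
    have h1 := finrank_span_eq_card (b := fun x : (B : Set β) => w g x) hg
    have h2 : Set.range (fun x : (B : Set β) => w g x) = w g '' (B : Set β) := by
      rw [Set.image_eq_range]
    rw [h2] at h1
    rw [h1]
    simp
  refine ⟨F, B.card, hF, fun g hg => ?_⟩
  have h1 : Submodule.span k (w g0 '' (S : Set β)) = Submodule.span k (w g0 '' (B : Set β)) := by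
    apply le_antisymm
    · exact Submodule.span_le.2 hsp
    · exact Submodule.span_mono (Set.image_mono hbS)
  have h2 : Module.finrank k (Submodule.span k (w g0 '' (S : Set β))) = B.card := by
    rw [h1]
    exact hcard g0 hli
  apply le_antisymm
  · rw [← h2]
    exact hg0 g
  · rw [← hcard g (hFg g hg)]
    exact Submodule.finrank_mono (Submodule.span_mono (Set.image_mono hbS))

/-- the monomial `μ` is in the ideal of `L` -/
def Bad {n : ℕ} (L : Finset (Finset (Fin n))) (μ : Fin n →₀ ℕ) : Prop :=
  ∃ t ∈ {s : Fin n →₀ ℕ | ∃ σ : Finset (Fin n), σ ∉ L ∧ s = ∑ v ∈ σ, Finsupp.single v 1}, t ≤ μ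

lemma mem_srI {n : ℕ} {k : Type} [Field k] (L : Finset (Finset (Fin n))) (p : MvPolynomial (Fin n) k) :
    p ∈ srI k L ↔ ∀ μ ∈ p.support, Bad L μ := by
  rw [srI_eq, mem_ideal_span_monomial_image]
  rfl

/-- the coefficients of `subst g (monomial m 1)` are polynomials in `g` -/
lemma coeff_poly {n : ℕ} {k : Type} [Field k] (m μ : Fin n →₀ ℕ) :
    ∃ P : MvPolynomial (Fin n × Fin n) k, ∀ g : Fin n × Fin n → k,
      eval g P = coeff μ (subst g (monomial m (1 : k))) := by
  refine ⟨coeff μ (∏ i, (∑ j, C (X (i, j) : MvPolynomial (Fin n × Fin n) k) * X j) ^ (m i)), fun g => ?_⟩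
  rw [← coeff_map]
  congr 1
  rw [MvPolynomial.monomial_eq, map_one, one_mul, Finsupp.prod_fintype _ _ (fun i => pow_zero _), _root_.map_prod, _root_.map_prod]
  refine Finset.prod_congr rfl fun i _ => ?_
  rw [map_pow, map_pow, subst_X, map_sum]
  congr 1
  unfold lf
  refine Finset.sum_congr rfl fun j _ => ?_
  rw [map_mul, map_C, map_X, eval_X]


/-- the coordinates modulo the ideal of `L` in degree `r` of `subst g p` -/
noncomputable def Phi {n : ℕ} {k : Type} [Field k] (L : Finset (Finset (Fin n))) (r : ℕ)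
    (g : Fin n × Fin n → k) : MvPolynomial (Fin n) k →ₗ[k] ({μ : Fin n →₀ ℕ // μ.degree = r} → k) :=
  open Classical in
  LinearMap.pi (fun μ => if Bad L μ.1 then 0 else
    (MvPolynomial.lcoeff k μ.1) ∘ₗ (subst g).toLinearMap)

lemma Phi_apply {n : ℕ} {k : Type} [Field k] (L : Finset (Finset (Fin n))) (r : ℕ)
    (g : Fin n × Fin n → k) (p : MvPolynomial (Fin n) k) (μ : {μ : Fin n →₀ ℕ // μ.degree = r}) :
    (¬ Bad L μ.1 → Phi L r g p μ = coeff μ.1 (subst g p)) ∧ (Bad L μ.1 → Phi L r g p μ = 0) := by
  classical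
  constructor
  · intro h
    simp [Phi, h]
  · intro h
    simp [Phi, h]

/-- the kernel of `Phi` on homogeneous polynomials -/
lemma Phi_zero {n : ℕ} {k : Type} [Field k] (L : Finset (Finset (Fin n))) (r : ℕ)
    (g : Fin n × Fin n → k) (p : MvPolynomial (Fin n) k) (hp : p.IsHomogeneous r) :
    Phi L r g p = 0 ↔ subst g p ∈ srI k L := by
  rw [mem_srI]
  constructor
  · intro h μ hμ
    by_contra hb
    have hd : μ.degree = r := by
      have h1 := (subst_homog g hp) (mem_support_iff.1 hμ)
      rw [Finsupp.degree_eq_weight_one]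
      exact h1
    have h2 := (Phi_apply L r g p ⟨μ, hd⟩).1 hb
    rw [h] at h2
    exact (mem_support_iff.1 hμ) h2.symm
  · intro h
    funext μ
    by_cases hb : Bad L μ.1
    · exact (Phi_apply L r g p μ).2 hb
    · rw [(Phi_apply L r g p μ).1 hb]
      by_contra hc
      exact hb (h μ.1 (mem_support_iff.2 hc))

lemma revLT_irrefl {n : ℕ} (m : Fin n →₀ ℕ) : ¬ RevLT m m := by
  rintro (h | ⟨-, j, h, -⟩)
  · exact lt_irrefl _ h
  · exact lt_irrefl _ h

open Classical in
/-- the monomials of degree `r` -/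
noncomputable def Dr (n r : ℕ) : Finset (Fin n →₀ ℕ) := (Finsupp.finite_of_degree_eq (σ := Fin n) r).toFinset

lemma mem_Dr {n r : ℕ} (m : Fin n →₀ ℕ) : m ∈ Dr n r ↔ m.degree = r := by
  unfold Dr
  rw [Set.Finite.mem_toFinset]
  rfl

open Classical in
/-- `m` is in the initial ideal iff its vector depends on the smaller ones -/
lemma inSet_iff {n : ℕ} {k : Type} [Field k] (L : Finset (Finset (Fin n))) (r : ℕ)
    (g : Fin n × Fin n → k) (m : Fin n →₀ ℕ) (hm : m.degree = r) :
    m ∈ inSet (coordI g (srI k L)) ↔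
      Phi L r g (monomial m 1) ∈ Submodule.span k ((fun m' => Phi L r g (monomial m' 1)) ''
        (((Dr n r).filter (fun m' => RevLT m' m) : Finset (Fin n →₀ ℕ)) : Set (Fin n →₀ ℕ))) := by
  constructor
  · rintro ⟨f, hf, hfm, hfs⟩
    have hf' : subst g f ∈ srI k L := hf
    set fh := homogeneousComponent r f with hfh
    have h1 : subst g fh ∈ srI k L := by
      rw [hfh, ← subst_component]
      exact srI_component L hf' r
    have h2 := (Phi_zero L r g fh (homogeneousComponent_isHomogeneous r f)).2 h1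
    have hc : coeff m fh = coeff m f := by
      rw [hfh, coeff_homogeneousComponent, if_pos hm]
    have hms : m ∈ fh.support := by
      rw [mem_support_iff, hc]
      exact hfm
    have h3 : fh = coeff m f • monomial m (1 : k) + ∑ m' ∈ fh.support.erase m, coeff m' fh • monomial m' (1 : k) := by
      have h4 : fh = ∑ m' ∈ fh.support, coeff m' fh • monomial m' (1 : k) := by
        conv_lhs => rw [← MvPolynomial.support_sum_monomial_coeff fh]
        refine Finset.sum_congr rfl fun m' _ => ?_
        rw [smul_monomial, smul_eq_mul, mul_one]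
      conv_lhs => rw [h4]
      rw [← Finset.add_sum_erase _ _ hms, hc]
    rw [h3, map_add, map_smul, map_sum] at h2
    have h5 : Phi L r g (monomial m 1) = -(coeff m f)⁻¹ • ∑ m' ∈ fh.support.erase m,
        Phi L r g (coeff m' fh • monomial m' (1 : k)) := by
      have h6 := eq_neg_of_add_eq_zero_left h2
      rw [neg_smul, ← smul_neg, ← h6, smul_smul, inv_mul_cancel₀ hfm, one_smul]
    rw [h5]
    refine Submodule.smul_mem _ _ (Submodule.sum_mem _ fun m' hm' => ?_)
    rw [map_smul]
    refine Submodule.smul_mem _ _ (Submodule.subset_span ⟨m', ?_, rfl⟩)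
    rw [mem_erase, mem_support_iff, hfh, coeff_homogeneousComponent] at hm'
    obtain ⟨hne, hcm⟩ := hm'
    split_ifs at hcm with hd
    · rw [mem_coe, mem_filter, mem_Dr]
      exact ⟨hd, hfs m' (mem_support_iff.2 hcm) hne⟩
    · exact absurd rfl hcm
  · intro h
    rw [← Finset.coe_image] at h
    obtain ⟨a, ha⟩ : ∃ a : (Fin n →₀ ℕ) → k, Phi L r g (monomial m 1) =
        ∑ m' ∈ (Dr n r).filter (fun m' => RevLT m' m), a m' • Phi L r g (monomial m' 1) := by
      rw [Finset.coe_image] at h
      obtain ⟨a, ha⟩ := (Submodule.mem_span_image_finset_iff_exists_fun k).1 h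
      refine ⟨fun m' => if h : m' ∈ (Dr n r).filter (fun m' => RevLT m' m) then a ⟨m', h⟩ else 0, ?_⟩
      rw [← ha]
      refine Eq.trans ?_ (Finset.sum_coe_sort ((Dr n r).filter (fun m' => RevLT m' m))
        (fun m' => (if h : m' ∈ (Dr n r).filter (fun m' => RevLT m' m) then a ⟨m', h⟩ else 0) •
          Phi L r g (monomial m' 1)))
      refine Finset.sum_congr rfl fun m' _ => ?_
      rw [dif_pos m'.2]
    set f : MvPolynomial (Fin n) k := monomial m 1 - ∑ m' ∈ (Dr n r).filter (fun m' => RevLT m' m), a m' • monomial m' 1 with hf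
    have hfh : f.IsHomogeneous r := by
      refine IsHomogeneous.sub (isHomogeneous_monomial _ hm) (IsHomogeneous.sum _ _ _ fun m' hm' => ?_)
      rw [smul_monomial]
      exact isHomogeneous_monomial _ ((mem_Dr _).1 (mem_filter.1 hm').1)
    have h1 : Phi L r g f = 0 := by
      rw [hf, map_sub, map_sum, ha, sub_eq_zero]
      refine Finset.sum_congr rfl fun m' _ => ?_
      rw [map_smul]
    have hco : ∀ μ, coeff μ f = (if m = μ then 1 else 0) - ∑ m' ∈ (Dr n r).filter (fun m' => RevLT m' m),
        (if m' = μ then a m' else 0) := by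
      intro μ
      rw [hf, coeff_sub, coeff_monomial, coeff_sum]
      congr 1
      refine Finset.sum_congr rfl fun m' _ => ?_
      rw [coeff_smul, coeff_monomial, smul_eq_mul]
      split_ifs <;> simp
    refine ⟨f, (Phi_zero L r g f hfh).1 h1, ?_, ?_⟩
    · rw [hco, if_pos rfl, Finset.sum_eq_zero, sub_zero]
      · exact one_ne_zero
      · intro m' hm'
        rw [if_neg]
        rintro rfl
        exact revLT_irrefl _ (mem_filter.1 hm').2
    · intro μ hμ hne
      rw [mem_support_iff, hco, if_neg (Ne.symm hne), zero_sub, neg_ne_zero] at hμ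
      obtain ⟨m', hm', hm2⟩ := Finset.exists_ne_zero_of_sum_ne_zero hμ
      split_ifs at hm2 with he
      · rw [← he]
        exact (mem_filter.1 hm').2
      · exact absurd rfl hm2

open Classical in
theorem stE1 : StE1 := by
  intro k _ _ n r L
  have hfin : Finite {μ : Fin n →₀ ℕ // μ.degree = r} := (Finsupp.finite_of_degree_eq r).to_subtype
  let I1 : Fintype {μ : Fin n →₀ ℕ // μ.degree = r} := Fintype.ofFinite _
  -- the family of vectors
  let w : (Fin n × Fin n → k) → (Fin n →₀ ℕ) → {μ : Fin n →₀ ℕ // μ.degree = r} → k :=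
    fun g m' => Phi L r g (monomial m' 1)
  have hP0 : ∀ (m' : Fin n →₀ ℕ) (μ : {μ : Fin n →₀ ℕ // μ.degree = r}), ∃ P : MvPolynomial (Fin n × Fin n) k,
      ∀ g, eval g P = w g m' μ := by
    intro m' μ
    by_cases hb : Bad L μ.1
    · exact ⟨0, fun g => by rw [map_zero]; exact ((Phi_apply L r g _ μ).2 hb).symm⟩
    · obtain ⟨P, hP⟩ := coeff_poly (k := k) m' μ.1
      exact ⟨P, fun g => by rw [hP]; exact ((Phi_apply L r g _ μ).1 hb).symm⟩
  choose P hP using hP0
  have hrk := fun S : Finset (Fin n →₀ ℕ) => generic_rank w P (fun g b μ => hP b μ g) S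
  choose F R hF hR using hrk
  let S1 : (Fin n →₀ ℕ) → Finset (Fin n →₀ ℕ) := fun m => (Dr n r).filter (fun m' => RevLT m' m)
  set G : MvPolynomial (Fin n × Fin n) k := ∏ m ∈ Dr n r, (F (S1 m) * F (insert m (S1 m))) with hG
  have hG0 : G ≠ 0 := by
    rw [hG, prod_ne_zero_iff]
    exact fun m _ => mul_ne_zero (hF _) (hF _)
  have key : ∀ g : Fin n × Fin n → k, eval g G ≠ 0 → ∀ m : Fin n →₀ ℕ, m.degree = r →
      (m ∈ inSet (coordI g (srI k L)) ↔ R (insert m (S1 m)) = R (S1 m)) := by
    intro g hg m hm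
    rw [hG, _root_.map_prod, prod_ne_zero_iff] at hg
    have h1 := hg m ((mem_Dr m).2 hm)
    rw [map_mul] at h1
    have h2 := hR (S1 m) g (left_ne_zero_of_mul h1)
    have h3 := hR (insert m (S1 m)) g (right_ne_zero_of_mul h1)
    have hle : Submodule.span k (w g '' (S1 m : Set (Fin n →₀ ℕ))) ≤
        Submodule.span k (w g '' ((insert m (S1 m) : Finset (Fin n →₀ ℕ)) : Set (Fin n →₀ ℕ))) :=
      Submodule.span_mono (Set.image_mono (by rw [coe_insert]; exact Set.subset_insert _ _))
    rw [inSet_iff L r g m hm, ← h2, ← h3]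
    constructor
    · intro h
      have h4 : Submodule.span k (w g '' ((insert m (S1 m) : Finset (Fin n →₀ ℕ)) : Set (Fin n →₀ ℕ))) =
          Submodule.span k (w g '' (S1 m : Set (Fin n →₀ ℕ))) := by
        apply le_antisymm _ hle
        rw [coe_insert, Set.image_insert_eq, Submodule.span_le]
        rintro x (rfl | hx)
        · exact h
        · exact Submodule.subset_span hx
      rw [h4]
    · intro h
      have h4 := Submodule.eq_of_le_of_finrank_eq hle h.symm
      have h5 : w g m ∈ Submodule.span k (w g '' ((insert m (S1 m) : Finset (Fin n →₀ ℕ)) : Set (Fin n →₀ ℕ))) :=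
        Submodule.subset_span ⟨m, by rw [coe_insert]; exact Set.mem_insert _ _, rfl⟩
      rw [← h4] at h5
      exact h5
  refine ⟨G, hG0, fun g hg hgG m hm => ?_⟩
  constructor
  · intro h
    refine ⟨G, hG0, fun g' _ hg' => ?_⟩
    rw [key g' hg' m hm, ← key g hgG m hm]
    exact h
  · rintro ⟨F1, hF1, hF1g⟩
    set D : MvPolynomial (Fin n × Fin n) k := (Matrix.mvPolynomialX (Fin n) (Fin n) k).det with hD
    have hD0 : D ≠ 0 := Matrix.det_mvPolynomialX_ne_zero (Fin n) k
    have hDg : ∀ g : Fin n × Fin n → k, eval g D = (Matrix.of (fun i j => g (i, j))).det := by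
      intro g
      rw [hD, RingHom.map_det]
      congr 1
      ext i j
      simp [Matrix.mvPolynomialX]
    obtain ⟨g', hg'⟩ := Pool.Agent.W689.KS.exists_eval_ne (F1 * G * D) (mul_ne_zero (mul_ne_zero hF1 hG0) hD0)
    rw [map_mul, map_mul] at hg'
    have hgD := right_ne_zero_of_mul hg'
    rw [hDg] at hgD
    have hgG' := right_ne_zero_of_mul (left_ne_zero_of_mul hg')
    have hgF1 := left_ne_zero_of_mul (left_ne_zero_of_mul hg')
    rw [key g hgG m hm, ← key g' hgG' m hm]
    exact hF1g g' hgD hgF1

end Pool.Agent.H36.KR
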