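import Pool.Agent.H37.KR.Fin

/-!
# The inequality of Kuehnel and Heawood type
-/

set_option autoImplicit false

namespace Pool.Agent.H36.KR

open Finset MvPolynomial Pool.Agent.W555.KS Pool.Agent.W460.KS Pool.Agent.H37.KR

/-- the substitution of an invertible matrix is injective -/
lemma subst_inj {n : ℕ} {k : Type} [Field k] (g : Fin n × Fin n → k)
    (hg : (Matrix.of (fun i j => g (i, j))).det ≠ 0) : Function.Injective (subst g) := by
  set G : Matrix (Fin n) (Fin n) k := Matrix.of (fun i j => g (i, j)) with hG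
  have hu : IsUnit G.det := isUnit_iff_ne_zero.mpr hg
  have h1 : (subst (fun ij => G⁻¹ ij.1 ij.2)).comp (subst g) = AlgHom.id k _ := by
    apply MvPolynomial.algHom_ext
    intro i
    rw [AlgHom.comp_apply, subst_X]
    unfold lf
    rw [map_sum]
    have h2 : ∀ j, subst (fun ij => G⁻¹ ij.1 ij.2) (C (g (i, j)) * X j) = ∑ l, C (G i j * G⁻¹ j l) * X l := by
      intro j
      rw [map_mul, subst_X]
      have : subst (fun ij => G⁻¹ ij.1 ij.2) (C (g (i, j))) = C (g (i, j)) := by
        unfold subst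
        rw [aeval_C]
        rfl
      rw [this]
      unfold lf
      rw [Finset.mul_sum]
      refine Finset.sum_congr rfl fun l _ => ?_
      rw [C_mul, mul_assoc]
      rfl
    simp only [h2]
    rw [Finset.sum_comm]
    have h3 : ∀ l, ∑ j, C (G i j * G⁻¹ j l) * (X l : MvPolynomial (Fin n) k) =
        C ((G * G⁻¹) i l) * X l := by
      intro l
      rw [← Finset.sum_mul, ← map_sum, Matrix.mul_apply]
    simp only [h3]
    rw [Matrix.mul_nonsing_inv G hu]
    simp [Matrix.one_apply]
  intro p q hpq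
  have h2 := congrArg (fun φ => φ p) h1
  have h3 := congrArg (fun φ => φ q) h1
  simp only [AlgHom.comp_apply, AlgHom.id_apply] at h2 h3
  rw [← h2, ← h3, hpq]

/-- if all sets of size `r` are faces then the ideal has nothing in degree `r` -/
lemma srI_low {n : ℕ} {k : Type} [Field k] (L : Finset (Finset (Fin n))) (hL : IsCx L) (r : ℕ)
    (hr : ∀ σ : Finset (Fin n), σ.card = r → σ ∈ L) (hrn : r ≤ n) (p : MvPolynomial (Fin n) k)
    (hp : p.IsHomogeneous r) (hpI : p ∈ srI k L) : p = 0 := by
  by_contra h0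
  obtain ⟨μ, hμ⟩ := Finset.nonempty_iff_ne_empty.2 (fun h => h0 (support_eq_empty.1 h))
  have hd : μ.degree = r := by
    rw [Finsupp.degree_eq_weight_one]
    exact hp (mem_support_iff.1 hμ)
  rw [srI_eq, mem_ideal_span_monomial_image] at hpI
  obtain ⟨t, ⟨σ, hσ, rfl⟩, ht⟩ := hpI μ hμ
  apply hσ
  have hc : σ.card ≤ r := by
    have h1 := (Finsupp.degree_mono) ht
    rw [map_sum, hd] at h1
    simpa using h1
  obtain ⟨τ, hτ, hτc⟩ := Finset.exists_superset_card_eq hc (by rw [Fintype.card_fin]; exact hrn)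
  exact hL.2 τ (hr τ hτc) σ hτ

/-- the number of the monomials of degree `r` in the first `N` variables -/
lemma card_first (n N r : ℕ) (hN : N ≤ n) :
    {m : Fin n →₀ ℕ | m.degree = r ∧ ∀ i : Fin n, N ≤ (i : ℕ) → m i = 0}.ncard = (N + r - 1).choose r := by
  classical
  have h1 : {m : Fin n →₀ ℕ | m.degree = r ∧ ∀ i : Fin n, N ≤ (i : ℕ) → m i = 0} =
      ((Finset.finsuppAntidiag ((univ : Finset (Fin n)).filter (fun i => (i : ℕ) < N)) r :
        Finset (Fin n →₀ ℕ)) : Set (Fin n →₀ ℕ)) := by
    ext m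
    rw [Set.mem_setOf_eq, mem_coe, mem_finsuppAntidiag]
    have hsup : (∀ i : Fin n, N ≤ (i : ℕ) → m i = 0) ↔
        m.support ⊆ (univ : Finset (Fin n)).filter (fun i => (i : ℕ) < N) := by
      constructor
      · intro h i hi
        rw [mem_filter]
        refine ⟨mem_univ _, ?_⟩
        by_contra hc
        exact (Finsupp.mem_support_iff.1 hi) (h i (by omega))
      · intro h i hi
        by_contra hc
        have := (mem_filter.1 (h (Finsupp.mem_support_iff.2 hc))).2
        omega
    rw [hsup]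
    constructor
    · rintro ⟨h2, h3⟩
      refine ⟨?_, h3⟩
      rw [← h2, Finsupp.degree_apply]
      exact (Finset.sum_subset h3 (fun i _ hi => Finsupp.notMem_support_iff.1 hi)).symm
    · rintro ⟨h2, h3⟩
      refine ⟨?_, h3⟩
      rw [← h2, Finsupp.degree_apply]
      exact (Finset.sum_subset h3 (fun i _ hi => Finsupp.notMem_support_iff.1 hi))
  have h2 : ((univ : Finset (Fin n)).filter (fun i : Fin n => (i : ℕ) < N)).card = N := by
    rw [Fin.card_filter_val_lt]
    omega
  rw [h1, Set.ncard_coe_finset, card_finsuppAntidiag_nat_eq_choose, h2]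


/-- all the monomials in the first `n - d` variables with small exponent of the last of them are independent
modulo the ideal if all sets of size `r` are faces: general form of the inequality -/
theorem general (h1 : StT2J) (h2 : StD) (h3 : StE2) (n d m r : ℕ) (L : Finset (Finset (Fin n))) (b : Fin m → ℕ)
    (β α : Fin m → Finset (Fin n) → ZMod 2) (hL : IsCx L) (hH : Hyp L d b β α) (hdn : d < n) (hdr : d < 2 * r)
    (hrn : r ≤ n) (hr : ∀ σ : Finset (Fin n), σ.card = r → σ ∈ L) :
    {m : Fin n →₀ ℕ | m.degree = r ∧ (∀ i : Fin n, n ≤ (i : ℕ) + d → m i = 0) ∧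
      m ⟨n - 1 - d, by omega⟩ < 2 * r - d}.ncard ≤ Nat.choose d r * nf d b r := by
  classical
  obtain ⟨J, hJr, hJc, hJ⟩ := h1 n d m L b β α hL hH r hdr
  obtain ⟨F, hF, hF'⟩ := h2 n d r L J hJr hdr hJ
  -- a rational matrix
  let row : Fin (d + 1) → Fin n := fun i => ⟨n - 1 - i, by omega⟩
  have hrow : Function.Injective row := by
    intro i j hij
    have := congrArg Fin.val hij
    simp only [row] at this
    apply Fin.ext
    omega
  let ρ : Fin (d + 1) × Fin n → Fin n × Fin n := fun p => (row p.1, p.2)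
  have hρ : Function.Injective ρ := by
    rintro ⟨i, v⟩ ⟨j, u⟩ h
    have h1 : row i = row j := congrArg Prod.fst h
    have h2 : v = u := congrArg Prod.snd h
    rw [hrow h1, h2]
  set D : MvPolynomial (Fin n × Fin n) ℚ := (Matrix.mvPolynomialX (Fin n) (Fin n) ℚ).det with hD
  have hD0 : D ≠ 0 := Matrix.det_mvPolynomialX_ne_zero (Fin n) ℚ
  have hDg : ∀ g : Fin n × Fin n → ℚ, eval g D = (Matrix.of (fun i j => g (i, j))).det := by
    intro g
    rw [hD, RingHom.map_det]
    congr 1
    ext i j
    simp [Matrix.mvPolynomialX]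
  have hF1 : rename ρ (map (Int.castRingHom ℚ) F) ≠ 0 := by
    intro h
    exact Pool.Agent.Y131.KS.map_ne (k := ℚ) (Or.inl inferInstance) hF
      (rename_injective ρ hρ (by rw [h, map_zero]))
  obtain ⟨g, hg⟩ := Pool.Agent.W689.KS.exists_eval_ne (rename ρ (map (Int.castRingHom ℚ) F) * D)
    (mul_ne_zero hF1 hD0)
  rw [map_mul] at hg
  have hgD := right_ne_zero_of_mul hg
  rw [hDg] at hgD
  have hgF := left_ne_zero_of_mul hg
  have hF2 := hF' ℚ (fun p => g (ρ p)) (by
    rw [eval_rename, eval_map] at hgF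
    rw [aeval_def]
    exact hgF)
  have h4 := h3 ℚ n d r hdn L J g hJr hdr hgD hF2
  refine le_trans (Set.ncard_le_ncard ?_ ?_) (h4.trans hJc)
  · rintro μ ⟨h5, h6, h7⟩
    refine ⟨h5, h6, h7, ?_⟩
    rintro ⟨f, hf, hfm, -⟩
    have hf' : subst g f ∈ srI ℚ L := hf
    have h8 : subst g (homogeneousComponent r f) ∈ srI ℚ L := by
      rw [← subst_component]
      exact srI_component L hf' r
    have h9 := srI_low L hL r hr hrn _ (subst_homog g (homogeneousComponent_isHomogeneous r f)) h8
    have h10 : homogeneousComponent r f = 0 := subst_inj g hgD (by rw [h9, map_zero])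
    have h11 := congrArg (coeff μ) h10
    rw [coeff_homogeneousComponent, if_pos h5, coeff_zero] at h11
    exact hfm h11
  · exact (Finsupp.finite_of_degree_eq (σ := Fin n) r).subset (fun μ h => h.1)

/-- **The inequality of Kuehnel and Heawood type.** If all sets of `t + 1` vertices are faces of `L` then
`(n - t - 2 choose t + 1)` is at most `(2 t + 1 choose t + 1)` times the number of factors of size `t + 1`. -/
theorem heawood (h1 : StT2J) (h2 : StD) (h3 : StE2) (n t m : ℕ) (L : Finset (Finset (Fin n))) (b : Fin m → ℕ)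
    (β α : Fin m → Finset (Fin n) → ZMod 2) (hL : IsCx L) (hH : Hyp L (2 * t + 1) b β α) (hdn : 2 * t + 1 < n)
    (hr : ∀ σ : Finset (Fin n), σ.card = t + 1 → σ ∈ L) :
    Nat.choose (n - t - 2) (t + 1) ≤ Nat.choose (2 * t + 1) (t + 1) * nf (2 * t + 1) b (t + 1) := by
  have h4 := general h1 h2 h3 n (2 * t + 1) m (t + 1) L b β α hL hH hdn (by omega) (by omega) hr
  refine le_trans (le_of_eq ?_) h4
  have h5 : {m : Fin n →₀ ℕ | m.degree = t + 1 ∧ (∀ i : Fin n, n ≤ (i : ℕ) + (2 * t + 1) → m i = 0) ∧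
      m ⟨n - 1 - (2 * t + 1), by omega⟩ < 2 * (t + 1) - (2 * t + 1)} =
      {m : Fin n →₀ ℕ | m.degree = t + 1 ∧ ∀ i : Fin n, n - (2 * t + 2) ≤ (i : ℕ) → m i = 0} := by
    ext μ
    simp only [Set.mem_setOf_eq]
    constructor
    · rintro ⟨h6, h7, h8⟩
      refine ⟨h6, fun i hi => ?_⟩
      by_cases hc : n ≤ (i : ℕ) + (2 * t + 1)
      · exact h7 i hc
      · have : i = ⟨n - 1 - (2 * t + 1), by omega⟩ := by
          apply Fin.ext
          simp only
          omega
        rw [this]
        omega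
    · rintro ⟨h6, h7⟩
      refine ⟨h6, fun i hi => h7 i (by omega), ?_⟩
      rw [h7 _ (by simp only; omega)]
      omega
  rw [h5, card_first n (n - (2 * t + 2)) (t + 1) (by omega)]
  congr 1
  omega

end Pool.Agent.H36.KR
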