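import Pool.Agent.H37.KR.Lin

/-!
# Exchange: spanning by monomials
-/

set_option autoImplicit false

namespace Pool.Agent.H36.KR

open Finset MvPolynomial Pool.Agent.W555.KS Pool.Agent.H37.KR

lemma component_mul {k : Type} [Field k] {n r : ℕ} (c z : MvPolynomial (Fin n) k) (hz : z.IsHomogeneous r) :
    homogeneousComponent r (c * z) = coeff 0 c • z := by
  conv_lhs => rw [← sum_homogeneousComponent c]
  rw [Finset.sum_mul, map_sum]
  have h1 : ∀ i, homogeneousComponent r (homogeneousComponent i c * z) =
      if r = i + r then homogeneousComponent i c * z else 0 := fun i =>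
    homogeneousComponent_of_mem ((homogeneousComponent_isHomogeneous i c).mul hz)
  rw [Finset.sum_congr rfl fun i _ => h1 i, Finset.sum_eq_single 0]
  · rw [if_pos (by omega), homogeneousComponent_zero, MvPolynomial.smul_eq_C_mul]
  · intro i _ hi
    rw [if_neg (by omega)]
  · intro h
    exact absurd (Finset.mem_range.2 (Nat.succ_pos _)) h

/-- the part of degree `r` of an element of the ideal generated by forms of degree `r` -/
lemma component_span {k : Type} [Field k] {n r : ℕ} {ι : Type} [Fintype ι] (z : ι → MvPolynomial (Fin n) k)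
    (hz : ∀ i, (z i).IsHomogeneous r) (q : MvPolynomial (Fin n) k) (hq : q ∈ Ideal.span (Set.range z)) :
    homogeneousComponent r q ∈ Submodule.span k (Set.range z) := by
  obtain ⟨c, hc⟩ := (Ideal.mem_span_range_iff_exists_fun).1 hq
  rw [← hc, map_sum]
  refine Submodule.sum_mem _ fun i _ => ?_
  rw [component_mul _ _ (hz i)]
  exact Submodule.smul_mem _ _ (Submodule.subset_span ⟨i, rfl⟩)

theorem stLin : StLin := by
  classical
  intro k _ n r ι _ I z hI hz hp
  let π : MvPolynomial (Fin n) k →ₗ[k] (MvPolynomial (Fin n) k ⧸ I) := (Ideal.Quotient.mkₐ k I).toLinearMap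
  have hπ : ∀ p, π p = 0 ↔ p ∈ I := fun p => Ideal.Quotient.eq_zero_iff_mem
  obtain ⟨b, hb, -, hsp, hli⟩ := exists_linearIndepOn_extension (K := k)
    (v := fun m : Fin n →₀ ℕ => π (monomial m (1 : k))) (s := ∅) (t := {m : Fin n →₀ ℕ | m.degree = r})
    (linearIndepOn_empty _ _) (Set.empty_subset _)
  have hbf : b.Finite := (Finsupp.finite_of_degree_eq (σ := Fin n) r).subset hb
  set B : Finset (Fin n →₀ ℕ) := hbf.toFinset with hB
  have hBb : (B : Set (Fin n →₀ ℕ)) = b := hbf.coe_toFinset
  rw [← hBb] at hb hsp hli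
  -- the forms of degree `r` modulo `I`
  have h1 : ∀ p : MvPolynomial (Fin n) k, p.IsHomogeneous r → π p ∈ Submodule.span k (Set.range (fun i => π (z i))) := by
    intro p hpr
    obtain ⟨a, ha, q, hq, hpa⟩ := Submodule.mem_sup.1 (hp p hpr)
    have h2 := congrArg (homogeneousComponent r) hpa
    rw [map_add, homogeneousComponent_of_mem hpr, if_pos rfl] at h2
    rw [← h2, map_add, (hπ _).2 (hI a ha r), zero_add]
    have h3 := Submodule.mem_map_of_mem (f := π) (component_span z hz q hq)
    rw [Submodule.map_span, ← Set.range_comp] at h3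
    exact h3
  refine ⟨B, fun m hm => hb (mem_coe.2 hm), ?_, ?_⟩
  · have h2 := finrank_span_eq_card (b := fun x : (B : Set (Fin n →₀ ℕ)) => π (monomial x.1 (1 : k))) hli
    have h3 : Fintype.card (B : Set (Fin n →₀ ℕ)) = B.card := by simp
    rw [h3] at h2
    rw [← h2]
    have h4 : Module.Finite k (Submodule.span k (Set.range (fun i => π (z i)))) :=
      FiniteDimensional.span_of_finite k (Set.finite_range _)
    refine le_trans (Submodule.finrank_mono (t := Submodule.span k (Set.range (fun i => π (z i)))) ?_) ?_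
    · rw [Submodule.span_le]
      rintro _ ⟨x, rfl⟩
      exact h1 _ (isHomogeneous_monomial _ (hb x.2))
    · exact finrank_range_le_card _
  · intro p hpr
    have h2 : π p ∈ Submodule.span k ((fun m : Fin n →₀ ℕ => π (monomial m (1 : k))) '' (B : Set (Fin n →₀ ℕ))) := by
      have h3 : p = ∑ m ∈ p.support, coeff m p • monomial m (1 : k) := by
        conv_lhs => rw [← MvPolynomial.support_sum_monomial_coeff p]
        refine Finset.sum_congr rfl fun m' _ => ?_
        rw [smul_monomial, smul_eq_mul, mul_one]
      rw [h3, map_sum]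
      refine Submodule.sum_mem _ fun m hm => ?_
      rw [map_smul]
      refine Submodule.smul_mem _ _ (hsp ⟨m, ?_, rfl⟩)
      have h4 := hpr (mem_support_iff.1 hm)
      rw [Set.mem_setOf_eq, Finsupp.degree_eq_weight_one]
      exact h4
    have h5 : (fun m : Fin n →₀ ℕ => π (monomial m (1 : k))) '' (B : Set (Fin n →₀ ℕ)) =
        π '' ((fun m : Fin n →₀ ℕ => monomial m (1 : k)) '' (B : Set (Fin n →₀ ℕ))) := by
      rw [Set.image_image]
    rw [h5, ← Submodule.map_span] at h2
    obtain ⟨q, hq, hqp⟩ := h2
    have h6 : p - q ∈ I := by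
      rw [← hπ, map_sub, hqp, sub_self]
    have h7 : q ∈ Ideal.span ((fun m => monomial m (1 : k)) '' (B : Set (Fin n →₀ ℕ))) := by
      refine Submodule.span_induction (p := fun q _ => q ∈ Ideal.span ((fun m => monomial m (1 : k)) '' (B : Set (Fin n →₀ ℕ))))
        ?_ ?_ ?_ ?_ hq
      · intro x hx
        exact Ideal.subset_span hx
      · exact Ideal.zero_mem _
      · intro x y _ _ hx hy
        exact Ideal.add_mem _ hx hy
      · intro a x _ hx
        rw [MvPolynomial.smul_eq_C_mul]
        exact Ideal.mul_mem_left _ _ hx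
    have h8 : p = (p - q) + q := by ring
    rw [h8]
    exact Ideal.add_mem _ (Ideal.mem_sup_left h6) (Ideal.mem_sup_right h7)

end Pool.Agent.H36.KR
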