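import Mathlib
import Pool.Agent.H37.KR.Defs
import Pool.Agent.H67.KR.StB

/-!
# The torus with seven vertices

Certificates for obstructions which are transfers of products of cocycles, and the torus with seven
vertices, for which the Heawood inequality is an equality.
-/

set_option autoImplicit false

namespace Pool.Agent.H36.KR

open Finset Pool.Agent.W555.KS Pool.Agent.Y131.KS Pool.Agent.H37.KR

variable {n : ℕ}

theorem oddPart_of {σ τ : Finset (Fin n)} (hd : Disjoint σ τ) (h : evenPart (σ ∪ τ) = σ) :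
    oddPart (σ ∪ τ) = τ := by
  have h1 := union_parts (σ ∪ τ)
  have h2 := disj_parts (σ ∪ τ)
  rw [h] at h1 h2
  ext v
  have h3 := Finset.ext_iff.1 h1 v
  rw [mem_union, mem_union] at h3
  constructor
  · intro hv
    rcases h3.1 (Or.inr hv) with h4 | h4
    · exact absurd hv (disjoint_left.1 h2 h4)
    · exact h4
  · intro hv
    rcases h3.2 (Or.inr hv) with h4 | h4
    · exact absurd hv (disjoint_left.1 hd h4)
    · exact h4

open Classical in
/-- the pattern cochain -/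
theorem pat_sum (D : ℕ) (Z : Finset (Fin n) → Finset (Fin n) → ZMod 2) :
    ∑ U ∈ powersetCard D univ, Z (evenPart U) (oddPart U) =
      ∑ σ, ∑ τ, if Disjoint σ τ ∧ σ.card + τ.card = D then
        (if evenPart (σ ∪ τ) = σ then 1 else 0) * Z σ τ else 0 := by
  rw [← Fintype.sum_prod_type' (f := fun σ τ => if Disjoint σ τ ∧ σ.card + τ.card = D then
        (if evenPart (σ ∪ τ) = σ then 1 else 0) * Z σ τ else 0)]
  refine Finset.sum_bij_ne_zero (fun U _ _ => (evenPart U, oddPart U)) ?_ ?_ ?_ ?_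
  · intro U _ _
    exact mem_univ _
  · intro U _ _ U' _ _ h
    rw [Prod.mk.injEq] at h
    rw [← union_parts U, ← union_parts U', h.1, h.2]
  · rintro ⟨σ, τ⟩ - hne
    simp only at hne
    have h1 : Disjoint σ τ ∧ σ.card + τ.card = D := by
      by_contra hcon
      exact hne (if_neg hcon)
    rw [if_pos h1] at hne
    have h2 : evenPart (σ ∪ τ) = σ := by
      by_contra hcon
      rw [if_neg hcon, zero_mul] at hne
      exact hne rfl
    rw [if_pos h2, one_mul] at hne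
    have h3 := oddPart_of h1.1 h2
    refine ⟨σ ∪ τ, ?_, ?_, ?_⟩
    · rw [mem_powersetCard]
      refine ⟨subset_univ _, ?_⟩
      rw [card_union_of_disjoint h1.1]
      exact h1.2
    · rw [h2, h3]
      exact hne
    · rw [h2, h3]
  · intro U hU _
    have hU' := (mem_powersetCard.1 hU).2
    rw [if_pos ⟨disj_parts U, by rw [card_parts]; exact hU'⟩, union_parts, if_pos rfl, one_mul]

/-- the certificate: the sum of the pattern, of `c` and of a coboundary is symmetric -/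
theorem cert2 (D : ℕ) (L : Finset (Finset (Fin n)))
    (c h : Finset (Fin n) → Finset (Fin n) → ZMod 2)
    (H : ∀ σ ∈ L, ∀ τ ∈ L, Disjoint σ τ → σ.card + τ.card = D + 1 →
      (if evenPart (σ ∪ τ) = σ then 1 else 0) + c σ τ +
        (∑ v ∈ σ, h (σ.erase v) τ + ∑ v ∈ τ, h σ (τ.erase v)) =
      (if evenPart (τ ∪ σ) = τ then 1 else 0) + c τ σ +
        (∑ v ∈ τ, h (τ.erase v) σ + ∑ v ∈ σ, h τ (σ.erase v)))
    (Z : Finset (Fin n) → Finset (Fin n) → ZMod 2)
    (h1 : ∀ σ τ, Z σ τ = Z τ σ) (h2 : ∀ σ τ, Z σ τ ≠ 0 → σ ∈ L ∧ τ ∈ L)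
    (h3 : ∀ ρ τ : Finset (Fin n), Disjoint ρ τ → ρ.card + τ.card = D →
      ∑ v ∈ (ρ ∪ τ)ᶜ, (Z (insert v ρ) τ + Z ρ (insert v τ)) = 0) :
    ∑ U ∈ powersetCard (D + 1) univ, Z (evenPart U) (oddPart U) = pr2 (D + 1) c Z := by
  classical
  have hB : (∑ σ, ∑ τ, if Disjoint σ τ ∧ σ.card + τ.card = D + 1 then
      (∑ v ∈ σ, h (σ.erase v) τ + ∑ v ∈ τ, h σ (τ.erase v)) * Z σ τ else 0) = 0 := by
    rw [← H67.KR.pr2_dd]
    unfold pr2
    refine sum_eq_zero fun σ _ => sum_eq_zero fun τ _ => ?_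
    by_cases hd : Disjoint σ τ ∧ σ.card + τ.card = D
    · rw [if_pos hd]
      have : dd Z σ τ = 0 := h3 σ τ hd.1 hd.2
      rw [this, mul_zero]
    · rw [if_neg hd]
  have hC : (∑ p : Finset (Fin n) × Finset (Fin n),
      if Disjoint p.1 p.2 ∧ p.1.card + p.2.card = D + 1 then
        ((if evenPart (p.1 ∪ p.2) = p.1 then 1 else 0) + c p.1 p.2 +
          (∑ v ∈ p.1, h (p.1.erase v) p.2 + ∑ v ∈ p.2, h p.1 (p.2.erase v))) * Z p.1 p.2
        else 0) = 0 := by
    refine Finset.sum_involution (fun p _ => (p.2, p.1)) ?_ ?_ ?_ ?_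
    · rintro ⟨σ, τ⟩ -
      simp only
      by_cases hd : Disjoint σ τ ∧ σ.card + τ.card = D + 1
      · have hd' : Disjoint τ σ ∧ τ.card + σ.card = D + 1 := ⟨hd.1.symm, by omega⟩
        rw [if_pos hd, if_pos hd']
        by_cases hz : Z σ τ = 0
        · rw [← h1 σ τ, hz, mul_zero, mul_zero, add_zero]
        · obtain ⟨hσ, hτ⟩ := h2 σ τ hz
          rw [H σ hσ τ hτ hd.1 hd.2, h1 σ τ]
          exact CharTwo.add_self_eq_zero _
      · have hd' : ¬ (Disjoint τ σ ∧ τ.card + σ.card = D + 1) :=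
          fun hh => hd ⟨hh.1.symm, by omega⟩
        rw [if_neg hd, if_neg hd', add_zero]
    · rintro ⟨σ, τ⟩ - hne heq
      simp only at hne heq
      rw [Prod.mk.injEq] at heq
      apply hne
      rw [if_neg]
      rintro ⟨hd, hc⟩
      rw [heq.1] at hd hc
      rw [disjoint_self_iff_empty] at hd
      rw [hd] at hc
      simp at hc
    · intro p _
      exact mem_univ _
    · rintro ⟨σ, τ⟩ -
      rfl
  rw [Fintype.sum_prod_type] at hC
  simp only at hC
  have hS : (∑ σ, ∑ τ, if Disjoint σ τ ∧ σ.card + τ.card = D + 1 then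
        ((if evenPart (σ ∪ τ) = σ then 1 else 0) + c σ τ +
          (∑ v ∈ σ, h (σ.erase v) τ + ∑ v ∈ τ, h σ (τ.erase v))) * Z σ τ
        else 0) =
      (∑ σ, ∑ τ, if Disjoint σ τ ∧ σ.card + τ.card = D + 1 then
        (if evenPart (σ ∪ τ) = σ then 1 else 0) * Z σ τ else 0) +
      pr2 (D + 1) c Z +
      (∑ σ, ∑ τ, if Disjoint σ τ ∧ σ.card + τ.card = D + 1 then
      (∑ v ∈ σ, h (σ.erase v) τ + ∑ v ∈ τ, h σ (τ.erase v)) * Z σ τ else 0) := by
    unfold pr2
    rw [← sum_add_distrib, ← sum_add_distrib]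
    refine sum_congr rfl fun σ _ => ?_
    rw [← sum_add_distrib, ← sum_add_distrib]
    refine sum_congr rfl fun τ _ => ?_
    by_cases hd : Disjoint σ τ ∧ σ.card + τ.card = D + 1
    · rw [if_pos hd, if_pos hd, if_pos hd, if_pos hd]
      ring
    · rw [if_neg hd, if_neg hd, if_neg hd, if_neg hd]
      simp
  rw [hS, hB, add_zero, ← pat_sum] at hC
  have : ∀ a b : ZMod 2, a + b = 0 → a = b := by decide
  exact this _ _ hC

/-! ### the torus -/

/-- the code of a set -/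
def code (σ : Finset (Fin 7)) : ℕ := ∑ i ∈ σ, 2 ^ (i : ℕ)

/-- `0` or `1` -/
def bit (c a : ℕ) : ℕ := if Nat.testBit c a then 1 else 0

/-- the triangulation of the torus with seven vertices: the faces of the triangles
`{i, i + 1, i + 3}`, `{i, i + 2, i + 3}` modulo seven -/
def T7 : Finset (Finset (Fin 7)) :=
  univ.filter (fun σ => ∃ i : Fin 7, σ ⊆ {i, i + 1, i + 3} ∨ σ ⊆ {i, i + 2, i + 3})

def be (σ : Finset (Fin 7)) : ZMod 2 := (bit 79228167236630820480385811464 (code σ) : ℕ)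

def al (σ : Finset (Fin 7)) : ZMod 2 := (bit 79228162883199220167246614560 (code σ) : ℕ)

def hc (r : ℕ) : ℕ :=
  if r = 0 then 2417851639229258349412352 else
  if r = 2 then 1208925819614629191483392 else
  if r = 4 then 1208925819614629191745536 else
  if r = 8 then 79229371440083952308619313160 else
  if r = 32 then 131072 else
  if r = 64 then 8590066216 else 0

def fT (σ τ : Finset (Fin 7)) : ℕ :=
  (if evenPart (σ ∪ τ) = σ then 1 else 0) +
    bit 79228167236630820480385811464 (code σ) * bit 79228162883199220167246614560 (code τ) +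
    (∑ v ∈ σ, bit (hc (code (σ.erase v))) (code τ) + ∑ v ∈ τ, bit (hc (code σ)) (code (τ.erase v)))

theorem check : ∀ σ ∈ T7, ∀ τ ∈ T7, Disjoint σ τ → σ.card + τ.card = 4 →
    fT σ τ % 2 = fT τ σ % 2 := by
  decide +kernel

theorem isCx_T7 : IsCx T7 := by
  refine ⟨by decide, ?_⟩
  intro σ hσ τ hτ
  rw [T7, mem_filter] at hσ ⊢
  obtain ⟨-, i, h | h⟩ := hσ
  · exact ⟨mem_univ _, i, Or.inl (hτ.trans h)⟩
  · exact ⟨mem_univ _, i, Or.inr (hτ.trans h)⟩

theorem edges_T7 : ∀ σ : Finset (Fin 7), σ.card = 2 → σ ∈ T7 := by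
  decide +kernel

theorem be_card : ∀ σ : Finset (Fin 7), σ.card ≠ 2 → be σ = 0 := by
  decide +kernel

theorem al_card : ∀ σ : Finset (Fin 7), σ.card ≠ 2 → al σ = 0 := by
  decide +kernel

theorem be_cocycle : ∀ ρ ∈ T7, ρ.card = 3 → ∑ v ∈ ρ, be (ρ.erase v) = 0 := by
  decide +kernel

theorem al_cocycle : ∀ ρ ∈ T7, ρ.card = 3 → ∑ v ∈ ρ, al (ρ.erase v) = 0 := by
  decide +kernel

theorem torus (Z : Finset (Fin 7) → Finset (Fin 7) → ZMod 2)
    (h1 : ∀ σ τ, Z σ τ = Z τ σ) (h2 : ∀ σ τ, Z σ τ ≠ 0 → σ ∈ T7 ∧ τ ∈ T7)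
    (h3 : ∀ ρ τ : Finset (Fin 7), Disjoint ρ τ → ρ.card + τ.card = 3 →
      ∑ v ∈ (ρ ∪ τ)ᶜ, (Z (insert v ρ) τ + Z ρ (insert v τ)) = 0) :
    ∑ U ∈ powersetCard (3 + 1) univ, Z (evenPart U) (oddPart U) =
      pr2 (3 + 1) (fun σ τ => be σ * al τ) Z := by
  refine cert2 3 T7 _ (fun ρ τ => ((bit (hc (code ρ)) (code τ) : ℕ) : ZMod 2)) ?_ Z h1 h2 h3
  intro σ hσ τ hτ hd hc'
  have h := (ZMod.natCast_eq_natCast_iff' _ _ 2).2 (check σ hσ τ hτ hd hc')
  unfold fT at h
  push_cast at h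
  unfold be al
  exact h

end Pool.Agent.H36.KR
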